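import Pool.Agent.H95.Cone

set_option autoImplicit false
open Filter Topology Pool.Agent.H95.ConeDefs

universe u

theorem Pool.Agent.Results.MP_06b617_an.SepConv.result
    (X : Type u) [NormedAddCommGroup X] [NormedSpace ℝ X] [CompleteSpace X]
    [TopologicalSpace.SeparableSpace X] (K : Set X) (hK : IsCone K)
    (hS : ∀ x : ℕ → X, (∀ n, x (n + 1) - x n ∈ K) → (∃ v, IsUB K x v) → ∃ s, IsSup K x s)
    (x : ℕ → X) (hx : ∀ n, x (n + 1) - x n ∈ K) (hv : ∃ v, IsUB K x v) :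
    ∃ l, Tendsto x atTop (𝓝 l) :=
  Pool.Agent.H95.Cone.conv_of_S hK hS x hx hv
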